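import Pool.Agent.H37.CND.Stmts

/-!
# Board `cnd` (MP_b57703): row PTB (helper45)
-/

set_option autoImplicit false

namespace Pool.CND

theorem ptb_thm (hNGE : S_NGE) (hEGC : S_EGC) (hEGZ : S_EGZ) : S_PTB := by
  intro p k _ _ _ _ h hh
  obtain ⟨h1, h2⟩ := hEGC p k h hh
  obtain ⟨z1, z2, z3, z4⟩ := hEGZ p k h hh
  exact ⟨EG k p h, inferInstance, h1, h2, z1, z2, z3, z4, hNGE p k h hh⟩

end Pool.CND
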